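import Mathlib

set_option autoImplicit false

/-!
# Grid-free affine hypersurfaces need not have bounded degree up to automorphisms

For `s = 2`, `t = 3` there are irreducible `(2, 3)`-grid-free hypersurfaces in `𝔸² × 𝔸²` which are
not of the form `{F(x, σ(y)) = 0}` with `σ` a polynomial automorphism and `F` of bounded degree
in `y`.
-/

namespace Pool.Agent.Results.MP_a64928_ag.GridFreeUnbounded

open MvPolynomial

/-- The polynomials in `x_1, ..., x_s` (indices `Sum.inl i`) and `y_1, ..., y_s`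
(indices `Sum.inr i`). -/
abbrev Poly (s : ℕ) : Type := MvPolynomial (Fin s ⊕ Fin s) ℂ

/-- The zero set of `F` in `𝔸^s × 𝔸^s`. -/
def zeroSet {s : ℕ} (F : Poly s) : Set ((Fin s → ℂ) × (Fin s → ℂ)) :=
  {p | eval (Sum.elim p.1 p.2) F = 0}

/-- An irreducible affine hypersurface: the zero set of an irreducible polynomial. -/
def IsIrreducibleHypersurface {s : ℕ} (H : Set ((Fin s → ℂ) × (Fin s → ℂ))) : Prop :=
  ∃ G : Poly s, Irreducible G ∧ H = zeroSet G

/-- `V` is `(s, t)`-grid-free: it contains no `S × T` with `|S| = s`, `|T| = t`. -/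
def GridFree {P₁ P₂ : Type} (s t : ℕ) (V : Set (P₁ × P₂)) : Prop :=
  ¬ ∃ (S : Finset P₁) (T : Finset P₂), S.card = s ∧ T.card = t ∧ ∀ u ∈ S, ∀ v ∈ T, (u, v) ∈ V

/-- The degree of `F` in the `y`-variables. -/
def degY {s : ℕ} (F : Poly s) : ℕ := F.support.sup fun d => ∑ i, d (Sum.inr i)

/-- The polynomial map `σ : 𝔸^s → 𝔸^s` has the polynomial inverse `τ`. -/
def IsInverse {s : ℕ} (σ τ : Fin s → MvPolynomial (Fin s) ℂ) : Prop :=
  (∀ i, aeval σ (τ i) = X i) ∧ ∀ i, aeval τ (σ i) = X i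

/-- The set `{(u, v) : F(u, σ(v)) = 0}`. -/
def twisted {s : ℕ} (F : Poly s) (σ : Fin s → MvPolynomial (Fin s) ℂ) :
    Set ((Fin s → ℂ) × (Fin s → ℂ)) :=
  {p | eval (Sum.elim p.1 fun i => eval p.2 (σ i)) F = 0}

section

/-- the variable `x_1` -/
noncomputable abbrev x1 : Poly 2 := X (Sum.inl 0)
/-- the variable `x_2` -/
noncomputable abbrev x2 : Poly 2 := X (Sum.inl 1)
/-- the variable `y_1` -/
noncomputable abbrev y1 : Poly 2 := X (Sum.inr 0)
/-- the variable `y_2` -/
noncomputable abbrev y2 : Poly 2 := X (Sum.inr 1)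

/-- the equation of the hypersurface -/
noncomputable def G (j : ℕ) : Poly 2 := x2 - x1 * (y1 ^ 2 + y2 ^ j) - y2

/-- elementary automorphism -/
noncomputable def fwd (j : ℕ) (c : ℂ) : Poly 2 →ₐ[ℂ] Poly 2 :=
  aeval (Sum.elim ![x1, x2 - C c * (x1 * (y1 ^ 2 + y2 ^ j) + y2)] ![y1, y2])

lemma fwd_comp (j : ℕ) (c : ℂ) : (fwd j c).comp (fwd j (-c)) = AlgHom.id ℂ _ := by
  apply algHom_ext
  intro i
  rcases i with i | i
  · fin_cases i
    · simp [fwd]
    · simp [fwd]
  · fin_cases i <;> simp [fwd]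

/-- elementary automorphism as an equivalence -/
noncomputable def fwdEquiv (j : ℕ) : Poly 2 ≃ₐ[ℂ] Poly 2 :=
  AlgEquiv.ofAlgHom (fwd j 1) (fwd j (-1)) (fwd_comp j 1) (by
    have := fwd_comp j (-1)
    rwa [neg_neg] at this)

lemma irreducible_G (j : ℕ) : Irreducible (G j) := by
  have h : G j = (fwdEquiv j) x2 := by
    show G j = fwd j 1 x2
    simp [fwd, G]
    ring
  rw [h, MulEquiv.irreducible_iff]
  exact (X_prime (R := ℂ) (i := (Sum.inl 1 : Fin 2 ⊕ Fin 2))).irreducible

lemma mem_zeroSet_G (j : ℕ) (u v : Fin 2 → ℂ) :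
    (u, v) ∈ zeroSet (G j) ↔ u 1 = u 0 * (v 0 ^ 2 + v 1 ^ j) + v 1 := by
  simp only [zeroSet, Set.mem_ofPred_eq, G]
  simp
  constructor
  · intro h; linear_combination h
  · intro h; linear_combination h

lemma gridFree_G (j : ℕ) : GridFree 2 3 (zeroSet (G j)) := by
  rintro ⟨S, T, hS, hT, h⟩
  obtain ⟨u, u', huu, rfl⟩ := Finset.card_eq_two.1 hS
  have hu := fun v hv => (mem_zeroSet_G j u v).1 (h u (by simp) v hv)
  have hu' := fun v hv => (mem_zeroSet_G j u' v).1 (h u' (by simp) v hv)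
  -- the first coordinates differ
  have hne : u 0 ≠ u' 0 := by
    intro h0
    obtain ⟨v, hv⟩ : T.Nonempty := by rw [← Finset.card_pos, hT]; norm_num
    apply huu
    funext i
    fin_cases i
    · exact h0
    · show u 1 = u' 1
      rw [hu v hv, hu' v hv, h0]
  set c := (u 1 - u' 1) / (u 0 - u' 0) with hc
  have hd : u 0 - u' 0 ≠ 0 := sub_ne_zero.2 hne
  have hA : ∀ v ∈ T, v 0 ^ 2 + v 1 ^ j = c := by
    intro v hv
    rw [hc, eq_div_iff hd]
    linear_combination hu' v hv - hu v hv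
  set b := u 1 - u 0 * c with hb
  have h1 : ∀ v ∈ T, v 1 = b := by
    intro v hv
    have := hu v hv
    rw [hA v hv] at this
    rw [hb]; linear_combination -this
  have h2 : ∀ v ∈ T, v 0 ^ 2 = c - b ^ j := by
    intro v hv
    have := hA v hv
    rw [h1 v hv] at this
    linear_combination this
  obtain ⟨v, w, z, hvw, hvz, hwz, rfl⟩ := Finset.card_eq_three.1 hT
  have sq : ∀ p ∈ ({v, w, z} : Finset (Fin 2 → ℂ)), ∀ q ∈ ({v, w, z} : Finset (Fin 2 → ℂ)),
      p ≠ q → p 0 = - q 0 := by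
    intro p hp q hq hpq
    have e : p 0 ^ 2 = q 0 ^ 2 := by rw [h2 p hp, h2 q hq]
    rcases sq_eq_sq_iff_eq_or_eq_neg.1 e with h' | h'
    · exfalso
      apply hpq
      funext i
      fin_cases i
      · exact h'
      · show p 1 = q 1
        rw [h1 p hp, h1 q hq]
    · exact h'
  have e1 := sq v (by simp) w (by simp) hvw
  have e2 := sq v (by simp) z (by simp) hvz
  have e3 := sq w (by simp) z (by simp) hwz
  apply hwz
  have hw0 : w 0 = z 0 := neg_injective (e1.symm.trans e2)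
  funext i
  fin_cases i
  · exact hw0
  · exact (h1 w (by simp)).trans (h1 z (by simp)).symm

/-! ### comparison of equations -/

/-- substitution of `σ` in the second group of variables -/
noncomputable def sub (σ : Fin 2 → MvPolynomial (Fin 2) ℂ) : Poly 2 →ₐ[ℂ] Poly 2 :=
  aeval (Sum.elim (fun i => X (Sum.inl i)) fun i => rename Sum.inr (σ i))

lemma eval_sub (σ : Fin 2 → MvPolynomial (Fin 2) ℂ) (F : Poly 2) (u v : Fin 2 → ℂ) :
    eval (Sum.elim u v) (sub σ F) = eval (Sum.elim u fun i => eval v (σ i)) F := by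
  have h : (aeval (Sum.elim u v) : Poly 2 →ₐ[ℂ] ℂ).comp (sub σ) =
      aeval (Sum.elim u fun i => eval v (σ i)) := by
    apply algHom_ext
    intro i
    rcases i with i | i
    · simp [sub]
    · simp only [sub, AlgHom.comp_apply, aeval_X, Sum.elim_inr, aeval_rename]
      have : (Sum.elim u v ∘ Sum.inr) = v := by funext k; rfl
      rw [this, aeval_eq_eval]
  have := congrArg (fun f => f F) h
  simpa [AlgHom.comp_apply, aeval_eq_eval] using this

lemma sub_sub {σ τ : Fin 2 → MvPolynomial (Fin 2) ℂ} (h : ∀ i, aeval τ (σ i) = X i)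
    (F : Poly 2) : sub τ (sub σ F) = F := by
  have h : (sub τ).comp (sub σ) = AlgHom.id ℂ _ := by
    apply algHom_ext
    intro i
    rcases i with i | i
    · simp [sub]
    · simp only [sub, AlgHom.comp_apply, aeval_X, Sum.elim_inr, aeval_rename, AlgHom.id_apply]
      have e : (Sum.elim (fun i => X (Sum.inl i)) fun i => rename Sum.inr (τ i)) ∘ Sum.inr =
          fun i => (rename Sum.inr (τ i) : Poly 2) := by funext k; rfl
      rw [e]
      have e2 : aeval (fun i => (rename Sum.inr (τ i) : Poly 2)) (σ i) =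
          rename Sum.inr (aeval τ (σ i)) := by
        have : (rename Sum.inr : MvPolynomial (Fin 2) ℂ →ₐ[ℂ] Poly 2).comp (aeval τ) =
            aeval (fun i => (rename Sum.inr (τ i) : Poly 2)) := by
          apply algHom_ext
          intro k
          simp
        rw [← this]; rfl
      rw [e2, h]
      simp
  have := congrArg (fun f => f F) h
  simpa [AlgHom.comp_apply] using this

/-- equal zero sets: the equation is a power of the irreducible one -/
lemma eq_power {G P : Poly 2} (hG : Irreducible G) (h : zeroSet P = zeroSet G)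
    (hne' : ∃ p, p ∈ zeroSet G) :
    ∃ (e : ℕ) (c : ℂ), e ≠ 0 ∧ c ≠ 0 ∧ P = C c * G ^ e := by
  have hz : ∀ F : Poly 2, ∀ w : Fin 2 ⊕ Fin 2 → ℂ,
      w ∈ zeroLocus ℂ (Ideal.span {F}) ↔ (w ∘ Sum.inl, w ∘ Sum.inr) ∈ zeroSet F := by
    intro F w
    have hw : Sum.elim (w ∘ Sum.inl) (w ∘ Sum.inr) = w := Sum.elim_comp_inl_inr w
    rw [mem_zeroLocus_iff]
    constructor
    · intro h
      have := h F (Ideal.subset_span rfl)
      show eval (Sum.elim (w ∘ Sum.inl) (w ∘ Sum.inr)) F = 0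
      rw [hw, ← aeval_eq_eval]
      exact this
    · intro h p hp
      obtain ⟨q, rfl⟩ := Ideal.mem_span_singleton'.1 hp
      have h' : eval (Sum.elim (w ∘ Sum.inl) (w ∘ Sum.inr)) F = 0 := h
      rw [hw, ← aeval_eq_eval] at h'
      rw [map_mul]
      have h'' : aeval w F = 0 := h'
      rw [h'', mul_zero]
  have hrad := vanishingIdeal_zeroLocus_eq_radical (k := ℂ) (K := ℂ) (Ideal.span {P})
  have hmem : G ∈ (Ideal.span {P}).radical := by
    rw [← hrad, mem_vanishingIdeal_iff]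
    intro w hw
    rw [hz, h] at hw
    have h' : eval (Sum.elim (w ∘ Sum.inl) (w ∘ Sum.inr)) G = 0 := hw
    rw [Sum.elim_comp_inl_inr, ← aeval_eq_eval] at h'
    exact h'
  obtain ⟨n, hn⟩ := hmem
  rw [Ideal.mem_span_singleton] at hn
  obtain ⟨e, -, he⟩ := (dvd_prime_pow hG.prime n).1 hn
  obtain ⟨v, hv⟩ := he.symm
  have hu := v.isUnit
  rw [isUnit_iff_totalDegree_of_isReduced] at hu
  obtain ⟨h1, h2⟩ := hu
  rw [totalDegree_eq_zero_iff_eq_C] at h2
  have hP : P = C (coeff 0 (v : Poly 2)) * G ^ e := by rw [← h2, ← hv, mul_comm]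
  refine ⟨e, coeff 0 (v : Poly 2), ?_, h1.ne_zero, hP⟩
  rintro rfl
  obtain ⟨p, hp⟩ := hne'
  rw [← h] at hp
  have h3 : eval (Sum.elim p.1 p.2) P = 0 := hp
  rw [hP, pow_zero, mul_one, eval_C] at h3
  exact h1.ne_zero h3

/-- specialisation of the first group of variables -/
noncomputable def spec (u : Fin 2 → ℂ) : Poly 2 →ₐ[ℂ] MvPolynomial (Fin 2) ℂ :=
  aeval (Sum.elim (fun i => C (u i)) X)

lemma totalDegree_spec (u : Fin 2 → ℂ) (F : Poly 2) : (spec u F).totalDegree ≤ degY F := by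
  have h : spec u F = ∑ d ∈ F.support, spec u (monomial d (coeff d F)) := by
    conv_lhs => rw [F.as_sum]
    rw [map_sum]
  rw [h]
  apply totalDegree_finsetSum_le
  intro d hd
  have h1 : spec u (monomial d (coeff d F)) = C (coeff d F * ∏ i, u i ^ d (Sum.inl i)) *
      ∏ i, X i ^ d (Sum.inr i) := by
    rw [spec, aeval_monomial, Finsupp.prod_fintype _ _ (fun i => by simp), Fintype.prod_sum_type]
    simp only [Sum.elim_inl, Sum.elim_inr, algebraMap_eq, C_mul, map_prod, map_pow]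
    ring
  rw [h1]
  refine le_trans (totalDegree_mul _ _) ?_
  rw [totalDegree_C, zero_add]
  refine le_trans (totalDegree_finsetProd _ _) ?_
  refine le_trans (Finset.sum_le_sum fun i _ => totalDegree_pow _ _) ?_
  simp only [totalDegree_X, mul_one]
  exact Finset.le_sup (f := fun d : (Fin 2 ⊕ Fin 2) →₀ ℕ => ∑ i, d (Sum.inr i)) hd

lemma totalDegree_pderiv (i : Fin 2) (p : MvPolynomial (Fin 2) ℂ) :
    (pderiv i p).totalDegree ≤ p.totalDegree := by
  have h : pderiv i p = ∑ d ∈ p.support, pderiv i (monomial d (coeff d p)) := by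
    conv_lhs => rw [p.as_sum]
    rw [map_sum]
  rw [h]
  apply totalDegree_finsetSum_le
  intro d hd
  rw [pderiv_monomial]
  by_cases h0 : coeff d p * (d i : ℂ) = 0
  · rw [h0]; simp
  rw [totalDegree_monomial _ h0]
  refine le_trans ?_ (le_totalDegree hd)
  rw [Finsupp.sum_fintype _ _ (fun _ => rfl), Finsupp.sum_fintype _ _ (fun _ => rfl)]
  apply Finset.sum_le_sum
  intro k _
  simp

/-- chain rule -/
lemma chain (τ : Fin 2 → MvPolynomial (Fin 2) ℂ) (i : Fin 2) (p : MvPolynomial (Fin 2) ℂ) :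
    pderiv i (aeval τ p) = ∑ k, aeval τ (pderiv k p) * pderiv i (τ k) := by
  induction p using MvPolynomial.induction_on with
  | C a => simp
  | add p q hp hq =>
    simp only [map_add, hp, hq, add_mul, Finset.sum_add_distrib]
  | mul_X p j hp =>
    simp only [map_mul, aeval_X, Derivation.leibniz, hp, smul_eq_mul, map_add, add_mul,
      Finset.sum_add_distrib, pderiv_X]
    rw [Finset.mul_sum]
    congr 1
    · rw [Finset.sum_eq_single j]
      · simp
      · intro b _ hb
        simp [hb.symm]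
      · simp
    · exact Finset.sum_congr rfl fun k _ => by ring

/-- Jacobian determinant -/
noncomputable def jac (p q : MvPolynomial (Fin 2) ℂ) : MvPolynomial (Fin 2) ℂ :=
  pderiv 0 p * pderiv 1 q - pderiv 1 p * pderiv 0 q

lemma jac_ne_zero {σ τ : Fin 2 → MvPolynomial (Fin 2) ℂ} (h : ∀ i, aeval τ (σ i) = X i) :
    jac (τ 0) (τ 1) ≠ 0 := by
  intro h0
  have e : ∀ i m : Fin 2, ∑ k, aeval τ (pderiv k (σ m)) * pderiv i (τ k) =
      pderiv i (X m : MvPolynomial (Fin 2) ℂ) := by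
    intro i m
    rw [← chain, h]
  have e00 := e 0 0
  have e01 := e 0 1
  have e10 := e 1 0
  have e11 := e 1 1
  rw [Fin.sum_univ_two] at e00 e01 e10 e11
  simp only [pderiv_X, Pi.single_apply] at e00 e01 e10 e11
  simp only [if_true, Fin.isValue, one_ne_zero, zero_ne_one, if_false] at e00 e01 e10 e11
  unfold jac at h0
  have : (1 : MvPolynomial (Fin 2) ℂ) = 0 := by
    generalize aeval τ (pderiv 0 (σ 0)) = a at *
    generalize aeval τ (pderiv 1 (σ 0)) = b at *
    generalize aeval τ (pderiv 0 (σ 1)) = c at *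
    generalize aeval τ (pderiv 1 (σ 1)) = d at *
    generalize pderiv 0 (τ 0) = p at *
    generalize pderiv 0 (τ 1) = q at *
    generalize pderiv 1 (τ 0) = r at *
    generalize pderiv 1 (τ 1) = s at *
    have key : (a * d - b * c) * (p * s - r * q) = (a * p + b * q) * (c * r + d * s) -
        (a * r + b * s) * (c * p + d * q) := by ring
    rw [h0, e00, e01, e10, e11] at key
    linear_combination -key
  exact one_ne_zero this

lemma totalDegree_jac (p q : MvPolynomial (Fin 2) ℂ) :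
    (jac p q).totalDegree ≤ p.totalDegree + q.totalDegree := by
  refine le_trans (totalDegree_sub _ _) (max_le ?_ ?_) <;>
    exact le_trans (totalDegree_mul _ _)
      (add_le_add (totalDegree_pderiv _ _) (totalDegree_pderiv _ _))

lemma le_totalDegree_pow {p : MvPolynomial (Fin 2) ℂ} {c : ℂ} {e : ℕ} (he : e ≠ 0) (hc : c ≠ 0) :
    p.totalDegree ≤ (C c * p ^ e).totalDegree := by
  by_cases hp : p = 0
  · rw [hp]; simp
  · apply totalDegree_le_of_dvd_of_isDomain
    · exact Dvd.dvd.mul_left (dvd_pow_self p he) _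
    · exact mul_ne_zero (by simpa using hc) (pow_ne_zero _ hp)

lemma totalDegree_pow_eq {p : MvPolynomial (Fin 2) ℂ} (hp : p ≠ 0) (n : ℕ) :
    (p ^ n).totalDegree = n * p.totalDegree := by
  induction n with
  | zero => simp
  | succ n ih => rw [pow_succ, totalDegree_mul_of_isDomain (pow_ne_zero _ hp) hp, ih]; ring

lemma main {d : ℕ} {σ τ : Fin 2 → MvPolynomial (Fin 2) ℂ} {F : Poly 2} (hs : IsInverse σ τ)
    (hF : degY F ≤ d) (hH : zeroSet (G (4 * d + 1)) = twisted F σ) : False := by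
  obtain ⟨h1, h2⟩ := hs
  set j := 4 * d + 1 with hj
  have hz : zeroSet (sub σ F) = zeroSet (G j) := by
    rw [hH]
    ext ⟨u, v⟩
    show eval (Sum.elim u v) (sub σ F) = 0 ↔ eval (Sum.elim u fun i => eval v (σ i)) F = 0
    rw [eval_sub]
  obtain ⟨e, c, he, hc, hP⟩ := eq_power (irreducible_G _) hz
    ⟨(![0, 0], ![0, 0]), (mem_zeroSet_G _ _ _).2 (by simp)⟩
  have hF' : F = C c * (sub τ (G j)) ^ e := by
    rw [← sub_sub h2 F, hP]
    simp [sub]
  have hspec : ∀ u : Fin 2 → ℂ, (C (u 1) - C (u 0) * (τ 0 ^ 2 + τ 1 ^ j) - τ 1).totalDegree ≤ d := by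
    intro u
    have e1 : spec u (sub τ (G j)) = C (u 1) - C (u 0) * (τ 0 ^ 2 + τ 1 ^ j) - τ 1 := by
      have e2 : ∀ k, spec u (rename Sum.inr (τ k)) = τ k := by
        intro k
        rw [spec, aeval_rename]
        have : (Sum.elim (fun i => C (u i)) X ∘ Sum.inr : Fin 2 → MvPolynomial (Fin 2) ℂ) = X := by
          funext k; rfl
        rw [this]
        simp
      have e3 : ∀ k, spec u (X (Sum.inl k)) = C (u k) := by
        intro k; simp [spec]
      simp [sub, G, e2, e3]
    have e4 : spec u F = C c * (C (u 1) - C (u 0) * (τ 0 ^ 2 + τ 1 ^ j) - τ 1) ^ e := by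
      rw [hF', map_mul, map_pow, e1]
      simp [spec]
    refine le_trans (le_totalDegree_pow he hc) ?_
    rw [← e4]
    exact le_trans (totalDegree_spec u F) hF
  have hb : (τ 1).totalDegree ≤ d := by
    have := hspec ![0, 0]
    simpa using this
  have ha : (τ 0 ^ 2 + τ 1 ^ j).totalDegree ≤ d := by
    have h3 := hspec ![1, 0]
    have h4 : τ 0 ^ 2 + τ 1 ^ j = -((C ((![1, 0] : Fin 2 → ℂ) 1) -
        C ((![1, 0] : Fin 2 → ℂ) 0) * (τ 0 ^ 2 + τ 1 ^ j) - τ 1) + τ 1) := by
      simp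
    rw [h4, totalDegree_neg]
    exact le_trans (totalDegree_add _ _) (max_le h3 hb)
  have hJ := jac_ne_zero h2
  have hjac : jac (τ 0 ^ 2 + τ 1 ^ j) (τ 1) = C 2 * τ 0 * jac (τ 0) (τ 1) := by
    simp only [jac, map_add, Derivation.leibniz_pow, smul_eq_mul, nsmul_eq_mul]
    have : (C 2 : MvPolynomial (Fin 2) ℂ) = 2 := map_ofNat C 2
    rw [this]
    push_cast
    ring
  have h0 : (τ 0).totalDegree ≤ 2 * d := by
    by_cases hτ : τ 0 = 0
    · rw [hτ]; simp
    have h5 : (τ 0).totalDegree ≤ (jac (τ 0 ^ 2 + τ 1 ^ j) (τ 1)).totalDegree := by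
      apply totalDegree_le_of_dvd_of_isDomain
      · rw [hjac]
        exact ⟨C 2 * jac (τ 0) (τ 1), by ring⟩
      · rw [hjac]
        refine mul_ne_zero (mul_ne_zero ?_ hτ) hJ
        simp
    have h6 := totalDegree_jac (τ 0 ^ 2 + τ 1 ^ j) (τ 1)
    omega
  have hτ1 : (τ 1).totalDegree ≠ 0 := by
    intro h7
    rw [totalDegree_eq_zero_iff_eq_C] at h7
    apply hJ
    rw [h7]
    simp [jac]
  have hτ1' : τ 1 ≠ 0 := by
    intro h; apply hτ1; rw [h]; simp
  have h8 : (τ 1 ^ j).totalDegree ≤ 4 * d := by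
    have h9 : τ 1 ^ j = (τ 0 ^ 2 + τ 1 ^ j) - τ 0 ^ 2 := by ring
    rw [h9]
    refine le_trans (totalDegree_sub _ _) (max_le (by omega) ?_)
    refine le_trans (totalDegree_pow _ _) ?_
    omega
  rw [totalDegree_pow_eq hτ1'] at h8
  have : j * 1 ≤ j * (τ 1).totalDegree := Nat.mul_le_mul_left _ (Nat.one_le_iff_ne_zero.2 hτ1)
  omega

end

/-- For `s = 2` and `t = 3` and every `d` there is an irreducible `(2, 3)`-grid-free affine
hypersurface in `𝔸² × 𝔸²` which is not of the form `{F ∘ (id × σ) = 0}` for any polynomial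
automorphism `σ` of `𝔸²` and any polynomial `F` of degree at most `d` in the `y`-variables. -/
theorem result : ∀ d : ℕ, ∃ H : Set ((Fin 2 → ℂ) × (Fin 2 → ℂ)),
    IsIrreducibleHypersurface H ∧ GridFree 2 3 H ∧
      ¬ ∃ (σ τ : Fin 2 → MvPolynomial (Fin 2) ℂ) (F : Poly 2),
        IsInverse σ τ ∧ degY F ≤ d ∧ H = twisted F σ := by
  intro d
  refine ⟨zeroSet (G (4 * d + 1)), ⟨_, irreducible_G _, rfl⟩, gridFree_G _, ?_⟩
  rintro ⟨σ, τ, F, h1, h2, h3⟩
  exact main h1 h2 h3

end Pool.Agent.Results.MP_a64928_ag.GridFreeUnbounded
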